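import Mathlib
import Pool.Agent.Q182.SigmaGdelta

/-!
# A weakly pseudocompact omega-bounded group that is not precompact
-/

namespace Pool.Agent.Results.MP_45eb7b_gt.WeaklyPseudocompact

open Filter Topology Set Pointwise

/-- `G` is precompact: `G = F + U` with `F` finite, for every neighbourhood `U` of `0`. -/
def IsPrecompactGroup (G : Type) [AddCommGroup G] [TopologicalSpace G] : Prop :=
  ∀ U ∈ 𝓝 (0 : G), ∃ F : Set G, F.Finite ∧ F + U = univ

/-- `G` is `ω`-bounded in Guran's sense: `G = C + U` with `C` countable, for every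
neighbourhood `U` of `0`. -/
def IsOmegaBoundedGuran (G : Type) [AddCommGroup G] [TopologicalSpace G] : Prop :=
  ∀ U ∈ 𝓝 (0 : G), ∃ C : Set G, C.Countable ∧ C + U = univ

/-- `X` is weakly pseudocompact: it is `G_δ`-dense in some Hausdorff compactification. -/
def IsWeaklyPseudocompact (X : Type) [TopologicalSpace X] : Prop :=
  ∃ (B : Type) (_ : TopologicalSpace B) (e : X → B), CompactSpace B ∧ T2Space B ∧
    IsEmbedding e ∧ DenseRange e ∧ ∀ S : Set B, IsGδ S → S.Nonempty → ∃ x, e x ∈ S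

open Q182.SigmaProd

/-- The point of `(ℤ/2)^ℝ` all of whose coordinates are `1`. -/
def q : ℝ → ZMod 2 := fun _ => 1

lemma sig_ne_q (x : Sig ℝ) : x.1 ≠ q := by
  intro h
  have h1 : {i | x.1 i ≠ 0}.Countable := x.2
  rw [h] at h1
  have h2 : {i : ℝ | q i ≠ 0} = univ := by
    ext i
    simp [q]
  rw [h2] at h1
  exact Set.not_countable_univ h1

/-- The locally compact space `ℤ × ((ℤ/2)^ℝ ∖ {q})`. -/
abbrev Y : Type := ℤ × {x : ℝ → ZMod 2 // x ≠ q}

instance : LocallyCompactSpace {x : ℝ → ZMod 2 // x ≠ q} :=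
  (isOpen_compl_singleton (x := q)).locallyCompactSpace

/-- The embedding of `ℤ × Σ` into the one-point compactification of `Y`. -/
def e (p : ℤ × Sig ℝ) : OnePoint Y := ((p.1, ⟨p.2.1, sig_ne_q p.2⟩) : Y)

lemma isEmbedding_e : IsEmbedding e := by
  have h1 : IsEmbedding (fun x : Sig ℝ => (⟨x.1, sig_ne_q x⟩ : {x : ℝ → ZMod 2 // x ≠ q})) := by
    exact IsEmbedding.codRestrict (e := fun x : Sig ℝ => x.1) IsEmbedding.subtypeVal
      {x : ℝ → ZMod 2 | x ≠ q} sig_ne_q
  have h2 : IsEmbedding (Prod.map (id : ℤ → ℤ)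
      (fun x : Sig ℝ => (⟨x.1, sig_ne_q x⟩ : {x : ℝ → ZMod 2 // x ≠ q}))) :=
    IsEmbedding.id.prodMap h1
  exact OnePoint.isOpenEmbedding_coe.isEmbedding.comp h2

open Classical in
/-- The continuous map from the `n`-th copy of `(ℤ/2)^ℝ` to the compactification. -/
noncomputable def c (n : ℤ) (z : ℝ → ZMod 2) : OnePoint Y :=
  if h : z = q then OnePoint.infty else ((n, ⟨z, h⟩) : Y)

lemma continuous_c (n : ℤ) : Continuous (c n) := by
  rw [continuous_def]
  intro U hU
  by_cases hinf : OnePoint.infty ∈ U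
  · rw [OnePoint.isOpen_iff_of_mem hinf] at hU
    have hK : IsCompact ((fun p : Y => p.2.1) ''
        (((fun p : Y => (p : OnePoint Y)) ⁻¹' U)ᶜ ∩ {p : Y | p.1 = n})) := by
      apply IsCompact.image
      · apply hU.2.inter_right
        exact isClosed_eq continuous_fst continuous_const
      · exact continuous_subtype_val.comp continuous_snd
    have h : (c n) ⁻¹' U = ((fun p : Y => p.2.1) ''
        (((fun p : Y => (p : OnePoint Y)) ⁻¹' U)ᶜ ∩ {p : Y | p.1 = n}))ᶜ := by
      ext z
      by_cases hz : z = q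
      · subst hz
        simp only [mem_preimage, c, dite_true, hinf, mem_compl_iff, true_iff]
        rintro ⟨p, -, hp⟩
        exact p.2.2 hp
      · simp only [mem_preimage, c, dif_neg hz, mem_compl_iff]
        constructor
        · rintro h1 ⟨⟨m, w⟩, ⟨hp1, hp2⟩, hp3⟩
          apply hp1
          have hm : m = n := hp2
          have hw : w = ⟨z, hz⟩ := Subtype.ext hp3
          subst hm hw
          exact h1
        · intro h1
          by_contra h2
          exact h1 ⟨(n, ⟨z, hz⟩), ⟨h2, rfl⟩, rfl⟩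
    rw [h]
    exact hK.isClosed.isOpen_compl
  · rw [OnePoint.isOpen_iff_of_notMem hinf] at hU
    have h : (c n) ⁻¹' U = (fun z : {x : ℝ → ZMod 2 // x ≠ q} => z.1) ''
        ((fun z : {x : ℝ → ZMod 2 // x ≠ q} => ((n, z) : Y)) ⁻¹'
          ((fun p : Y => (p : OnePoint Y)) ⁻¹' U)) := by
      ext z
      constructor
      · intro h1
        by_cases hz : z = q
        · subst hz
          simp only [mem_preimage, c, dite_true] at h1
          exact absurd h1 hinf
        · simp only [mem_preimage, c, dif_neg hz] at h1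
          exact ⟨⟨z, hz⟩, h1, rfl⟩
      · rintro ⟨w, hw, rfl⟩
        simp only [mem_preimage, c, dif_neg w.2]
        exact hw
    rw [h]
    apply (isOpen_compl_singleton (x := q)).isOpenEmbedding_subtypeVal.isOpenMap
    exact hU.preimage (by fun_prop)

lemma exists_c (y : OnePoint Y) : ∃ n z, c n z = y := by
  induction y using OnePoint.rec with
  | infty => exact ⟨0, q, by simp [c]⟩
  | coe p => exact ⟨p.1, p.2.1, by simp [c, p.2.2]⟩

lemma c_sig (n : ℤ) (x : Sig ℝ) : c n x.1 = e (n, x) := by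
  simp [c, sig_ne_q x, e]

lemma gdelta_e (S : Set (OnePoint Y)) (hS : IsGδ S) (hne : S.Nonempty) : ∃ x, e x ∈ S := by
  obtain ⟨y, hy⟩ := hne
  obtain ⟨n, z, rfl⟩ := exists_c y
  obtain ⟨x, hx⟩ := gdelta_dense (hS.preimage (continuous_c n)) ⟨z, hy⟩
  exact ⟨(n, x), by rw [← c_sig]; exact hx⟩

/-- There is a Hausdorff (abelian) topological group that is weakly pseudocompact and `ω`-bounded
in Guran's sense, but not precompact. -/
theorem result :
    ∃ (G : Type) (_ : AddCommGroup G) (_ : TopologicalSpace G),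
      IsTopologicalAddGroup G ∧ T2Space G ∧ IsWeaklyPseudocompact G ∧ IsOmegaBoundedGuran G ∧
      ¬ IsPrecompactGroup G := by
  classical
  refine ⟨ℤ × Sig ℝ, inferInstance, inferInstance, inferInstance, inferInstance, ?_, ?_, ?_⟩
  · refine ⟨OnePoint Y, inferInstance, e, inferInstance, inferInstance, isEmbedding_e, ?_,
      gdelta_e⟩
    rw [DenseRange, dense_iff_inter_open]
    intro U hU hne
    obtain ⟨x, hx⟩ := gdelta_e U hU.isGδ hne
    exact ⟨e x, hx, x, rfl⟩
  · intro U hU
    have hU' : {x : Sig ℝ | ((0 : ℤ), x) ∈ U} ∈ 𝓝 (0 : Sig ℝ) := by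
      have hc : Continuous (fun x : Sig ℝ => ((0 : ℤ), x)) := by fun_prop
      exact hc.continuousAt.preimage_mem_nhds hU
    obtain ⟨F, hF⟩ := mem_nhds_zero hU'
    let r : (F → ZMod 2) → Sig ℝ := fun w => ⟨fun i => if h : i ∈ F then w ⟨i, h⟩ else 0, by
      refine Set.Countable.mono ?_ F.countable_toSet
      intro i hi
      by_contra h
      exact hi (dif_neg h)⟩
    refine ⟨range (fun p : ℤ × (F → ZMod 2) => (p.1, r p.2)), countable_range _, ?_⟩
    rw [eq_univ_iff_forall]
    rintro ⟨n, x⟩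
    refine mem_add.2 ⟨(n, r (fun i => x.1 i)), ⟨(n, fun i => x.1 i), rfl⟩,
      (0, x - r (fun i => x.1 i)), ?_, ?_⟩
    · apply hF
      intro i hi
      show x.1 i - (if h : i ∈ F then x.1 i else 0) = 0
      rw [dif_pos hi, sub_self]
    · simp
  · intro h
    have hU : {p : ℤ × Sig ℝ | p.1 = 0} ∈ 𝓝 (0 : ℤ × Sig ℝ) :=
      (isOpen_discrete {(0 : ℤ)}).preimage continuous_fst |>.mem_nhds rfl
    obtain ⟨F, hF, hFU⟩ := h _ hU
    have h1 : (univ : Set ℤ) ⊆ Prod.fst '' F := by
      intro n _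
      have h2 : (n, (0 : Sig ℝ)) ∈ F + {p : ℤ × Sig ℝ | p.1 = 0} := by
        rw [hFU]
        trivial
      obtain ⟨a, ha, b, hb, hab⟩ := mem_add.1 h2
      refine ⟨a, ha, ?_⟩
      have h3 := congrArg Prod.fst hab
      have h4 : b.1 = 0 := hb
      simpa [h4] using h3
    exact Set.infinite_univ ((hF.image Prod.fst).subset h1)

end Pool.Agent.Results.MP_45eb7b_gt.WeaklyPseudocompact
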